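import Pool.Agent.Y127.NTower

/-!
# The Tate conjecture over `F` for all powers of varieties with a nodal reduction

Let `F` be a finitely generated field of characteristic `0` with the algebraic closure `k`, let `Γ` be
its Galois group, `W` the `ℓ`-adic cohomology of the varieties over `k`, and `χ` the inverse of the
cyclotomic character (so that the condition `g c = χ(g)^j c` for `c ∈ H^(2j)` says that `c` is an
invariant of `H^(2j)(j)`). The theorem is proved for an abstract Weil cohomology theory with an
action of a group.

Let `X_i` be varieties over `F` for which numerical and homological equivalence coincide (surfaces,
complete intersections and so on) and whose transcendental cohomology `T_i` (the orthogonal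
complement of all algebraic classes) is concentrated in the middle degree and irreducible under
every open subgroup. For every `i` let there be an element `g_i` of `Γ`, trivial on the Tate twists,
which acts on the cohomology of `X_i` by the Picard-Lefschetz formula with a transcendental vanishing
cycle and trivially on the cohomology of `Z` and of the `X_j`, `j ≠ i`. (The example: an element of
the inertia group at a place at which `X_i` has an ordinary double point and `Z` and the other `X_j`
have good reduction.)

Let `Y = X_1^(n_1) × ... × X_r^(n_r) × Z` with arbitrary exponents. Let `F'` be a finite extension of
`F` whose Galois group contains `g_i` for all `i` such that `dim X_i` is even and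
`n_i ≥ dim T_i` (for example `F' = F`). Then every Tate class of `Y` over `F'` is a combination of
classes of cycles defined over `F'`, if the Tate conjecture holds for `Z` over the finite extensions of
`F` (and conversely this follows if the statement about `Y` holds for all these `F'`).

For even dimension the exponents are not bounded: over the fields considered here the Zariski closure
of the image of the Galois group contains the full orthogonal group of `T_i`, so the classes of the
determinants, which appear on `X_i^(n_i)` for `n_i ≥ dim T_i` over the extensions where the
determinant is trivial and for which algebraicity is not known, are not Tate classes over `F'`. The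
proof uses the first fundamental theorem for the full orthogonal group without a bound on the number
of variables. It is proved here with the sum of the Casimir identities over all variables and the
positivity of an explicit rational matrix, whose kernel consists of the determinants.
-/

universe u v w

namespace Pool.Agent.Results.MP_d61fbb_ag.NodalAllPowers

open Pool.Agent.H914 Pool.Agent.TH125.Gal Pool.Agent.Y127

/-- **The Tate conjecture over a given field for all products of powers of varieties with a nodal
reduction.** -/
theorem result {k : Type u} [Field k] {𝒱 : VarClass k} {ops : CycleOps 𝒱}
    {W : WeilCohomology.{u, v} ops} {Γ : Type w} [Group Γ] {χ : Γ →* W.Kˣ}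
    {ι : Type} {X : ι → GVar W Γ} {Z : GVar W Γ} {g : ι → Γ} (h : PLFamily χ X Z g)
    {S L : Set ι} {Y : GVar W Γ} (hY : LTower X Z S L Y)
    (hG : GaloisType χ Y) :
    (∀ Δ : Subgroup Γ, Δ.FiniteIndex → (∀ i ∈ L, g i ∈ Δ) → TateOver χ Δ Y) ↔
      TateConjecture χ Z :=
  tate_over_iff h hY hG

end Pool.Agent.Results.MP_d61fbb_ag.NodalAllPowers
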